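import Pool.Agent.H25.FPT2
import Pool.Agent.H25.CrDefs

set_option autoImplicit false

namespace Pool.Agent.Results.MP_3f5cd8_lc.Fpt
open Pool.Agent.H11.PT Pool.Agent.H25.BN Pool.Agent.H25.FP Pool.Agent.H25.Cr

section
variable {V : Type}

open Classical in
noncomputable def mx (B : SimpleGraph V × (V → ℤˣ)) : Matrix V V (ZMod 2) :=
  fun x y => if x = y then (if B.2 x = 1 then 0 else 1) else if B.1.Adj x y then 1 else 0

open Classical in
theorem mx_inv (B : SimpleGraph V × (V → ℤˣ)) (a : V) : mx (inv B a) = mx B +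
    Matrix.vecMulVec (fun x => if B.1.Adj a x then 1 else 0) fun x => if B.1.Adj a x then 1 else 0 := by
  ext x y
  simp only [mx, inv, lc, Matrix.add_apply, Matrix.vecMulVec_apply]
  by_cases h : x = y
  · subst h
    rcases Int.units_eq_one_or (B.2 x) with e | e <;> by_cases h1 : B.1.Adj a x <;> simp [e, h1]
    rfl
  · by_cases h1 : B.1.Adj a x <;> by_cases h2 : B.1.Adj a y <;> by_cases h3 : B.1.Adj x y <;>
      simp [h, h1, h2, h3, Xor]
    rfl

theorem rank_add [Fintype V] (A B : Matrix V V (ZMod 2)) : (A + B).rank ≤ A.rank + B.rank := by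
  unfold Matrix.rank
  refine le_trans (Submodule.finrank_mono ?_) (Submodule.finrank_add_le_finrank_add_finrank _ _)
  rintro _ ⟨x, rfl⟩
  rw [Matrix.mulVecLin_add]
  exact Submodule.add_mem_sup ⟨x, rfl⟩ ⟨x, rfl⟩

theorem rank_le [Fintype V] [DecidableEq V] (w : List V) (B : SimpleGraph V × (V → ℤˣ)) :
    (mx (w.foldl inv B) - mx B).rank ≤ w.length := by
  induction w using List.reverseRecOn with
  | nil => simp
  | append_singleton w a ih =>
    rw [List.foldl_append, List.foldl_cons, List.foldl_nil, mx_inv, add_sub_right_comm]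
    refine (rank_add _ _).trans ?_
    have := Matrix.rank_vecMulVec_le (fun x => open Classical in if (w.foldl inv B).1.Adj a x then
      (1 : ZMod 2) else 0) fun x => open Classical in if (w.foldl inv B).1.Adj a x then 1 else 0
    simp only [List.length_append, List.length_singleton]
    omega

theorem lower [Fintype V] (G : SimpleGraph V) (k : ℕ) (h : CrLe G k) : Fintype.card V ≤ k := by
  classical
  obtain ⟨w, h1, h2⟩ := h fun _ => 1
  have := rank_le w (G, fun _ => 1)
  rw [h2] at this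
  have e : mx (G, -fun _ => (1 : ℤˣ)) - mx (G, fun _ => 1) = 1 := by
    ext x y
    by_cases h : x = y <;> simp [mx, h, Matrix.one_apply]
  rw [e, Matrix.rank_one] at this
  omega

end

abbrev Mat := List (List Bool)
def at2 (A : Mat) (x y : ℕ) : Bool := (A.getD x []).getD y false
def tab (n : ℕ) (f : ℕ → ℕ → Bool) : Mat := (List.range n).map fun x => (List.range n).map (f x)

theorem at2_tab {n : ℕ} (f : ℕ → ℕ → Bool) {x y : ℕ} (hx : x < n) (hy : y < n) :
    at2 (tab n f) x y = f x y := by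
  simp [at2, tab, List.getD_eq_getElem?_getD, hx, hy]

def stp (n : ℕ) (A : Mat) (a : ℕ) : Mat :=
  tab n fun x y => at2 A x y ^^ ((a != x && at2 A a x) && (a != y && at2 A a y))

def ini (n : ℕ) (E : List (ℕ × ℕ)) : Mat :=
  tab n fun x y => x != y && (E.contains (x, y) || E.contains (y, x))

def chk (n : ℕ) (E : List (ℕ × ℕ)) (w : List ℕ) : Bool :=
  (List.range n).all fun x => (List.range n).all fun y =>
    at2 (w.foldl (stp n) (ini n E)) x y == (at2 (ini n E) x y ^^ (x == y))

def Rep {n : ℕ} (β : Fin n → ℤˣ) (A : Mat) (B : SimpleGraph (Fin n) × (Fin n → ℤˣ)) : Prop :=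
  (∀ x y : Fin n, x ≠ y → (at2 A x y = true ↔ B.1.Adj x y)) ∧
    ∀ x : Fin n, B.2 x = bif at2 A x x then -β x else β x

theorem rep_stp {n : ℕ} {β : Fin n → ℤˣ} {A : Mat} {B : SimpleGraph (Fin n) × (Fin n → ℤˣ)}
    (h : Rep β A B) (a : Fin n) : Rep β (stp n A a) (inv B a) := by
  have k : ∀ x : Fin n, ((a : ℕ) != x && at2 A a x) = true ↔ B.1.Adj a x := by
    intro x
    by_cases e : a = x
    · simp [e]
    · simp [Fin.val_inj, e, h.1 a x e]
  refine ⟨fun x y hxy => ?_, fun x => ?_⟩
  · simp only [stp, at2_tab _ x.2 y.2, inv, lc]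
    rw [← k, ← k, ← h.1 x y hxy]
    cases at2 A x y <;> cases ((a : ℕ) != x && at2 A a x) <;> cases ((a : ℕ) != y && at2 A a y) <;>
      simp [hxy, Xor]
  · simp only [stp, at2_tab _ x.2 x.2, inv, h.2 x]
    have := k x
    by_cases e : B.1.Adj a x
    · rw [if_pos e, this.2 e]; cases at2 A x x <;> simp
    · rw [if_neg e, Bool.eq_false_iff.2 fun h => e (this.1 h)]; simp

theorem rep_fold {n : ℕ} {β : Fin n → ℤˣ} (w : List (Fin n)) : ∀ {A : Mat}
    {B : SimpleGraph (Fin n) × (Fin n → ℤˣ)}, Rep β A B →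
      Rep β ((w.map Fin.val).foldl (stp n) A) (w.foldl inv B) := by
  induction w with
  | nil => intro _ _ h; exact h
  | cons a w ih => intro _ _ h; exact ih (rep_stp h a)

theorem rep_ini (n : ℕ) (E : List (ℕ × ℕ)) (β : Fin n → ℤˣ) : Rep β (ini n E) (gr n E, β) := by
  refine ⟨fun x y h => ?_, fun x => ?_⟩
  · simp [ini, at2_tab _ x.2 y.2, gr, h, Fin.val_inj]
  · simp [ini, at2_tab _ x.2 x.2]

theorem chk_iff (n : ℕ) (E : List (ℕ × ℕ)) (β : Fin n → ℤˣ) (w : List (Fin n)) :
    chk n E (w.map Fin.val) = true ↔ w.foldl inv (gr n E, β) = (gr n E, -β) := by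
  have h := rep_fold w (rep_ini n E β)
  have h0 := rep_ini n E β
  have hd : ∀ x : Fin n, at2 (ini n E) x x = false := fun x => by simp [ini, at2_tab _ x.2 x.2]
  simp only [chk, List.all_eq_true, List.mem_range, beq_iff_eq]
  constructor
  · intro g
    refine Prod.ext (SimpleGraph.ext (funext fun x => funext fun y => ?_)) (funext fun x => ?_)
    · by_cases e : x = y
      · simp [e]
      · have := g x x.2 y y.2
        rw [← h.1 x y e, ← h0.1 x y e, this, beq_eq_false_iff_ne.2 (by simpa [Fin.val_inj] using e)]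
        simp
    · rw [h.2 x, g x x.2 x x.2, hd]; simp
  · intro g x hx y hy
    rw [g] at h
    by_cases e : x = y
    · subst e
      have := h.2 ⟨x, hx⟩
      rw [hd ⟨x, hx⟩]
      revert this
      cases at2 ((w.map Fin.val).foldl (stp n) (ini n E)) x x
      · rcases Int.units_eq_one_or (β ⟨x, hx⟩) with e | e <;> simp [e]
      · simp
    · have e' : (⟨x, hx⟩ : Fin n) ≠ ⟨y, hy⟩ := by simpa using e
      have := (h.1 _ _ e').trans (h0.1 _ _ e').symm
      simp only [beq_eq_false_iff_ne.2 e, Bool.xor_false]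
      exact Bool.eq_iff_iff.2 this

def W (p : ((ℕ × List (ℕ × ℕ)) × ℕ) × ℕ) : Bool :=
  decide (p.1.1.1 ≤ p.1.2) && (enumL (p.1.1.1 + 1) p.1.2 p.2).any fun w =>
    chk p.1.1.1 p.1.1.2 (w.filter fun a => decide (a < p.1.1.1))

theorem PT_W : PT W := by
  have h1 : PT fun p : (ℕ × List (ℕ × ℕ)) × List ℕ => p.2.foldl (stp p.1.1) (ini p.1.1 p.1.2) := by
    refine PT.foldl_inv (g := fun p : (ℕ × List (ℕ × ℕ)) × List ℕ => stp p.1.1) (by fun_prop) (by unfold ini tab; fun_prop)
      (by unfold stp tab at2; fun_prop) (fun p A => A.length ≤ p.1.1 ∧ ∀ r ∈ A, r.length ≤ p.1.1)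
      (fun p => List.replicate p.1.1 (List.replicate p.1.1 true)) (by fun_prop)
      (by simp [ini, tab]) (by simp [stp, tab]) fun p A h => ?_
    exact sz_list_le _ _ _ h.1 fun r hr => sz_list_le _ _ _ (h.2 r hr) fun b _ => sz_bool b
  have h2 : PT fun p : (ℕ × List (ℕ × ℕ)) × List ℕ => chk p.1.1 p.1.2 p.2 := by
    have h3 : PT fun p : (ℕ × List (ℕ × ℕ)) × List ℕ => ini p.1.1 p.1.2 := by
      unfold ini tab; fun_prop
    have h4 : PT fun q : (ℕ × Mat) × Mat => (List.range q.1.1).all fun x => (List.range q.1.1).all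
        fun y => at2 q.1.2 x y == (at2 q.2 x y ^^ (x == y)) := by unfold at2; fun_prop
    exact h4.comp (g := fun p : (ℕ × List (ℕ × ℕ)) × List ℕ =>
      ((p.1.1, p.2.foldl (stp p.1.1) (ini p.1.1 p.1.2)), ini p.1.1 p.1.2)) (by fun_prop)
  unfold W
  refine PT.and (by fun_prop) (PT.any (by fun_prop) ?_)
  exact h2.comp (g := fun q : (((ℕ × List (ℕ × ℕ)) × ℕ) × ℕ) × List ℕ =>
    (q.1.1.1, q.2.filter fun a => decide (a < q.1.1.1.1))) (by fun_prop)

/-- `cr G ≥ n` for every graph on `n` vertices, and deciding `cr G ≤ k` is FPT in `k`. -/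
theorem result : (∀ (n : ℕ) (G : SimpleGraph (Fin n)) (k : ℕ), CrLe G k → n ≤ k) ∧
    FPT (fun x : (ℕ × List (ℕ × ℕ)) × ℕ => CrLe (gr x.1.1 x.1.2) x.2) fun x => x.2 := by
  refine ⟨fun n G k h => by simpa using lower G k h, ?_⟩
  refine fpt_of_pad (fun x => x.2 * x.2) (by fun_prop) (fun k => k * k)
    (Primrec.nat_mul.comp Primrec.id Primrec.id).to_comp (fun _ => le_rfl) W PT_W ?_
  rintro ⟨⟨n, E⟩, k⟩
  simp only [W, Bool.and_eq_true, decide_eq_true_eq, List.any_eq_true]
  constructor
  · intro h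
    have hn : n ≤ k := by simpa using lower _ _ h
    obtain ⟨w, h1, h2⟩ := h fun _ => 1
    refine ⟨hn, w.map Fin.val ++ List.replicate (k - w.length) n,
      mem_enumL (succ_pow_le n k hn) _ (by simp; omega) fun a ha => ?_, ?_⟩
    · rcases List.mem_append.1 ha with ha | ha
      · obtain ⟨b, _, rfl⟩ := List.mem_map.1 ha
        have := b.2; omega
      · rw [List.eq_of_mem_replicate ha]; omega
    · rw [List.filter_append, List.filter_eq_self.2 (by simp), List.filter_eq_nil_iff.2 (by
        intro a ha; rw [List.eq_of_mem_replicate ha]; simp), List.append_nil]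
      exact (chk_iff n E _ w).2 h2
  · rintro ⟨_, u, hu, h⟩ β
    have h1 := ((enumL_inv _ _ _).2.2 u hu).1
    obtain ⟨w, hw⟩ : ∃ w : List (Fin n), w.map Fin.val = u.filter fun a => decide (a < n) :=
      ⟨(u.filter fun a => decide (a < n)).attach.map fun a =>
        ⟨a.1, by simpa using (List.mem_filter.1 a.2).2⟩, by simp [List.map_map, Function.comp_def]⟩
    refine ⟨w, ?_, (chk_iff n E β w).1 (hw ▸ h)⟩
    have := congrArg List.length hw
    have := List.length_filter_le (fun a => decide (a < n)) u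
    simp only [List.length_map] at *
    omega

end Pool.Agent.Results.MP_3f5cd8_lc.Fpt
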